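import Mathlib

set_option autoImplicit false

namespace Pool.Agent.Results.MP_2d361f_co.NotSymmetric

open Finset Function

/-- A nonempty family satisfying the basis exchange property: the bases of a matroid. -/
def IsBases {n : ℕ} (𝓑 : Finset (Finset (Fin n))) : Prop :=
  𝓑.Nonempty ∧ ∀ A ∈ 𝓑, ∀ B ∈ 𝓑, ∀ x ∈ A \ B, ∃ y ∈ B \ A, insert y (A.erase x) ∈ 𝓑

/-- The set `E(X; A, B)`. -/
def Ex {n : ℕ} (𝓑 : Finset (Finset (Fin n))) (X A B : Finset (Fin n)) : Set (Finset (Fin n)) :=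
  {Y | Y ⊆ B ∧ (A \ X) ∪ Y ∈ 𝓑 ∧ (B \ Y) ∪ X ∈ 𝓑}

/-- `t` arises from `s` by a unique subset exchange. -/
def Step {n m : ℕ} (𝓑 : Finset (Finset (Fin n))) (s t : Fin m → Finset (Fin n)) : Prop :=
  ∃ i j, i < j ∧ ∃ X Y, X ⊆ s i ∧ Ex 𝓑 X (s i) (s j) = {Y} ∧
    t = update (update s i ((s i \ X) ∪ Y)) j ((s j \ Y) ∪ X)

def S (a : ℕ) : Finset (Fin 8) := {i | a.testBit i}

def isB (a : ℕ) : Bool :=
  (1767440192655788686694199093089073417564590918798147364427602083193061376 >>> a) % 2 == 1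

def bs : List ℕ := [15, 27, 29, 30, 39, 43, 45, 46, 51, 53, 54, 57, 58, 71, 75, 78, 83, 85, 86, 89, 90, 92, 99, 101, 102, 105, 106, 108, 113, 116, 120, 135, 139, 142, 147, 149, 150, 153, 154, 156, 163, 165, 169, 170, 172, 178, 180, 184, 195, 198, 209, 210, 212, 225, 226, 228, 240]

def M : Finset (Finset (Fin 8)) := bs.toFinset.image S

def df (a b : ℕ) : ℕ := a &&& (255 ^^^ b)

def ex (a b x y : ℕ) : Bool := y &&& b == y && isB (df a x ||| y) && isB (df b y ||| x)

theorem S_or (a b : ℕ) : S a ∪ S b = S (a ||| b) := by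
  ext i
  simp [S]

theorem S_df (a b : ℕ) : S a \ S b = S (df a b) := by
  ext i
  have : (255 : ℕ).testBit i = true := by revert i; decide
  simp [S, df, this]

theorem S_pow : ∀ x : Fin 8, ({x} : Finset (Fin 8)) = S (2 ^ x.1) := by decide

theorem S_inj {a b : ℕ} (ha : a < 256) (hb : b < 256) (h : S a = S b) : a = b := by
  refine Nat.eq_of_testBit_eq fun i => ?_
  by_cases hi : i < 8
  · have := Finset.ext_iff.1 h ⟨i, hi⟩
    simpa [S] using this
  · have h1 : 256 ≤ 2 ^ i := Nat.pow_le_pow_right (show 0 < 2 by norm_num) (show 8 ≤ i by omega)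
    rw [Nat.testBit_lt_two_pow (by omega), Nat.testBit_lt_two_pow (by omega)]

theorem S_surj (A : Finset (Fin 8)) : ∃ a < 256, S a = A := by
  have : (range 256).image S = univ := by
    apply eq_univ_of_card
    rw [card_image_of_injOn fun a ha b hb => S_inj (mem_range.1 ha) (mem_range.1 hb)]
    simp
  have h : A ∈ (range 256).image S := by rw [this]; exact mem_univ A
  simpa using h

theorem S_sub {a b : ℕ} (ha : a < 256) : S a ⊆ S b ↔ a &&& b = a := by
  rw [← inter_eq_left, show S a ∩ S b = S (a &&& b) by ext i; simp [S]]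
  exact ⟨S_inj (lt_of_le_of_lt Nat.and_le_left ha) ha, fun h => by rw [h]⟩

theorem bs_iff : ∀ a < 256, a ∈ bs ↔ isB a = true := by decide +kernel

theorem bs_lt : ∀ c ∈ bs, c < 256 := by decide +kernel

theorem mem_M {a : ℕ} (ha : a < 256) : S a ∈ M ↔ isB a = true := by
  simp only [M, mem_image, List.mem_toFinset, ← bs_iff a ha]
  exact ⟨fun ⟨b, hb, e⟩ => S_inj (bs_lt b hb) ha e ▸ hb, fun h => ⟨a, h, rfl⟩⟩

theorem df_lt {a b y : ℕ} (ha : a < 256) (hy : y < 256) : df a b ||| y < 256 :=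
  Nat.or_lt_two_pow (n := 8) (lt_of_le_of_lt Nat.and_le_left ha) hy

theorem mem_Ex {a b x y : ℕ} (ha : a < 256) (hb : b < 256) (hx : x < 256) (hy : y < 256) :
    S y ∈ Ex M (S x) (S a) (S b) ↔ ex a b x y = true := by
  simp only [Ex, Set.mem_ofPred_eq, S_df, S_or, mem_M (df_lt ha hy), mem_M (df_lt hb hx), S_sub hy,
    ex, Bool.and_eq_true, beq_iff_eq, and_assoc]

theorem exch : (bs.all fun a => bs.all fun b => (List.finRange 8).all fun x =>
    !a.testBit x || b.testBit x || (List.finRange 8).any fun y =>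
      b.testBit y && !a.testBit y && isB (df a (2 ^ x.1) ||| 2 ^ y.1)) = true := by
  decide +kernel

theorem bases : IsBases M := by
  refine ⟨⟨S 15, (mem_M (by decide)).2 (by decide +kernel)⟩, ?_⟩
  simp only [M, forall_mem_image, List.mem_toFinset]
  intro a ha b hb x hx
  have h := exch
  simp only [List.all_eq_true, List.any_eq_true, Bool.or_eq_true, Bool.and_eq_true,
    Bool.not_eq_true'] at h
  simp only [S, mem_sdiff, mem_filter, mem_univ, true_and] at hx
  rcases h a ha b hb x (List.mem_finRange x) with (h | h) | ⟨y, -, h⟩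
  · simp [h] at hx
  · exact absurd h hx.2
  · refine ⟨y, by simp [S, h.1], ?_⟩
    rw [erase_eq, insert_eq, union_comm, S_pow x, S_pow y, S_df, S_or]
    exact (mem_M (df_lt (bs_lt a ha) (Nat.pow_lt_pow_right (show 1 < 2 by decide) y.2))).2 h.2

def cl : List (ℕ × ℕ) := [(147, 108), (108, 147), (163, 92), (92, 163)]

theorem closed : ∀ p ∈ cl, ∀ x < 256, x &&& p.1 = x → ∀ y < 256, ex p.1 p.2 x y = true →
    (df p.1 x ||| y, df p.2 y ||| x) ∈ cl ∨ ∃ z < 256, z ≠ y ∧ ex p.1 p.2 x z = true := by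
  decide +kernel

theorem cl_lt : ∀ p ∈ cl, p.1 < 256 ∧ p.2 < 256 := by decide

theorem first : ∀ y < 256, ex 106 149 72 y = true ↔ y = 129 := by decide +kernel

theorem stay {s t : Fin 2 → Finset (Fin 8)} (h : Relation.ReflTransGen (Step M) s t)
    (hs : ∃ p ∈ cl, s 0 = S p.1 ∧ s 1 = S p.2) : ∃ p ∈ cl, t 0 = S p.1 ∧ t 1 = S p.2 := by
  induction h with
  | refl => exact hs
  | tail _ h ih =>
    obtain ⟨p, hp, e0, e1⟩ := ih
    obtain ⟨i, j, hij, X, Y, h1, h2, rfl⟩ := h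
    obtain ⟨rfl, rfl⟩ : i = 0 ∧ j = 1 := (by decide : ∀ i j : Fin 2, i < j → i = 0 ∧ j = 1) i j hij
    obtain ⟨x, hx, rfl⟩ := S_surj X
    obtain ⟨y, hy, rfl⟩ := S_surj Y
    obtain ⟨l1, l2⟩ := cl_lt p hp
    rw [e0] at h1
    rw [e0, e1] at h2
    rcases closed p hp x hx ((S_sub hx).1 h1) y hy ((mem_Ex l1 l2 hx hy).1 (h2 ▸ rfl)) with
      h3 | ⟨z, hz, h3, h4⟩
    · exact ⟨_, h3, by simp [e0, S_df, S_or], by simp [e1, S_df, S_or]⟩
    · have h5 := (mem_Ex l1 l2 hx hz).2 h4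
      rw [h2] at h5
      exact absurd (S_inj hz hy h5) h3

theorem result : ¬ ∀ (n : ℕ) (𝓑 : Finset (Finset (Fin n))), IsBases 𝓑 →
    ∀ (m : ℕ) (s t : Fin m → Finset (Fin n)), (∀ i, s i ∈ 𝓑) → (∀ i, t i ∈ 𝓑) →
      Relation.ReflTransGen (Step 𝓑) s t → Relation.ReflTransGen (Step 𝓑) t s := by
  intro h
  have h1 : Step M ![S 106, S 149] ![S 163, S 92] := by
    refine ⟨0, 1, by decide, S 72, S 129, by decide, Set.ext fun Y => ?_, by decide⟩
    obtain ⟨y, hy, rfl⟩ := S_surj Y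
    refine (mem_Ex (a := 106) (b := 149) (by decide) (by decide) (by decide) hy).trans
      ((first y hy).trans ⟨fun e => by rw [e]; rfl, fun e => S_inj hy (by decide) e⟩)
  have h2 := h 8 M bases 2 _ _
    (Fin.forall_fin_two.2 ⟨(mem_M (a := 106) (by decide)).2 (by decide +kernel),
      (mem_M (a := 149) (by decide)).2 (by decide +kernel)⟩)
    (Fin.forall_fin_two.2 ⟨(mem_M (a := 163) (by decide)).2 (by decide +kernel),
      (mem_M (a := 92) (by decide)).2 (by decide +kernel)⟩) (.single h1)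
  have h3 := stay h2 ⟨(163, 92), by decide, rfl, rfl⟩
  revert h3
  decide

end Pool.Agent.Results.MP_2d361f_co.NotSymmetric
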